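import Mathlib

/-! Auxiliary facts for the task E_ext of the project BP (helper814): sesquilinear forms. -/

set_option autoImplicit false

open scoped ComplexOrder InnerProductSpace ComplexConjugate Topology

noncomputable section

namespace H68R2.BP.Eextaux

section cs
variable {E : Type} [AddCommGroup E] [Module ℂ E]

/-- Cauchy-Schwarz for positive semidefinite hermitian forms (linear in the first variable) -/
theorem cs (B : E → E → ℂ) (ha : ∀ x x' y, B (x + x') y = B x y + B x' y)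
    (hs : ∀ (c : ℂ) x y, B (c • x) y = c * B x y) (hh : ∀ x y, B y x = conj (B x y))
    (hp : ∀ x, 0 ≤ (B x x).re) (x y : E) : ‖B x y‖ ^ 2 ≤ (B x x).re * (B y y).re := by
  let c : PreInnerProductSpace.Core ℂ E :=
    { inner := fun x y => B y x
      conj_inner_symm := fun x y => (hh x y).symm
      re_inner_nonneg := fun x => hp x
      add_left := fun x y z => by
        show B z (x + y) = B z x + B z y
        rw [hh (x + y) z, ha, map_add, ← hh, ← hh]
      smul_left := fun x y r => by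
        show B y (r • x) = conj r * B y x
        rw [hh (r • x) y, hs, map_mul, ← hh] }
  have h := @InnerProductSpace.Core.inner_mul_inner_self_le ℂ E _ _ _ c x y
  have h1 : ‖B y x‖ * ‖B x y‖ ≤ (B x x).re * (B y y).re := h
  have h2 : ‖B y x‖ = ‖B x y‖ := by rw [hh x y, RCLike.norm_conj]
  rw [h2] at h1
  rw [sq]
  exact h1

end cs

section op
variable {E L : Type} [AddCommGroup E] [Module ℂ E] [NormedAddCommGroup L] [InnerProductSpace ℂ L]
  [CompleteSpace L]

theorem dense_of (ρ : E →ₗ[ℂ] L) (h : ∀ x : L, (∀ a, ⟪ρ a, x⟫_ℂ = 0) → x = 0) :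
    DenseRange ρ := by
  have h1 : (LinearMap.range ρ).topologicalClosure = ⊤ := by
    rw [Submodule.topologicalClosure_eq_top_iff, Submodule.eq_bot_iff]
    intro x hx
    apply h
    intro a
    exact (Submodule.mem_orthogonal _ _).1 hx _ ⟨a, rfl⟩
  have h2 := Submodule.dense_iff_topologicalClosure_eq_top.2 h1
  rw [LinearMap.coe_range] at h2
  exact h2

/-- the operator of a bounded sesquilinear form on a dense subspace -/
theorem exists_op (ρ : E →ₗ[ℂ] L) (h : ∀ x : L, (∀ a, ⟪ρ a, x⟫_ℂ = 0) → x = 0)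
    (b : E → E → ℂ) (C : ℝ) (hC : 0 ≤ C)
    (b1 : ∀ a a' c, b (a + a') c = b a c + b a' c)
    (b2 : ∀ (k : ℂ) a c, b (k • a) c = conj k * b a c)
    (b3 : ∀ a c c', b a (c + c') = b a c + b a c')
    (b4 : ∀ (k : ℂ) a c, b a (k • c) = k * b a c)
    (hb : ∀ a c, ‖b a c‖ ≤ C * ‖ρ c‖ * ‖ρ a‖) :
    ∃ T : L →L[ℂ] L, (∀ a c, ⟪ρ a, T (ρ c)⟫_ℂ = b a c) ∧ ‖T‖ ≤ C := by
  have hd := dense_of ρ h
  have hv : ∀ c, ∃ ξ : L, (∀ a, ⟪ρ a, ξ⟫_ℂ = b a c) ∧ ‖ξ‖ ≤ C * ‖ρ c‖ := by
    intro c
    let f : E →ₗ[ℂ] ℂ :=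
      { toFun := fun a => conj (b a c)
        map_add' := fun a a' => by rw [b1, map_add]
        map_smul' := fun k a => by
          rw [b2, map_mul, Complex.conj_conj, RingHom.id_apply, smul_eq_mul] }
    have hf : ∀ a, ‖f a‖ ≤ (C * ‖ρ c‖) * ‖ρ a‖ := by
      intro a
      show ‖conj (b a c)‖ ≤ _
      rw [RCLike.norm_conj]
      exact hb a c
    have hg : ∀ a, f.extendOfNorm ρ (ρ a) = f a := fun a =>
      LinearMap.extendOfNorm_eq hd ⟨_, hf⟩ a
    have hg2 : ‖f.extendOfNorm ρ‖ ≤ C * ‖ρ c‖ :=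
      LinearMap.opNorm_extendOfNorm_le hd (by positivity) hf
    refine ⟨(InnerProductSpace.toDual ℂ L).symm (f.extendOfNorm ρ), ?_, ?_⟩
    · intro a
      rw [← inner_conj_symm, InnerProductSpace.toDual_symm_apply, hg]
      show conj (conj (b a c)) = _
      rw [Complex.conj_conj]
    · rw [LinearIsometryEquiv.norm_map]
      exact hg2
  choose ξ hξ1 hξ2 using hv
  have huniq : ∀ x y : L, (∀ a, ⟪ρ a, x⟫_ℂ = ⟪ρ a, y⟫_ℂ) → x = y := by
    intro x y hxy
    rw [← sub_eq_zero]
    apply h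
    intro a
    rw [inner_sub_right, hxy, sub_self]
  let F : E →ₗ[ℂ] L :=
    { toFun := ξ
      map_add' := fun c c' => by
        apply huniq
        intro a
        rw [inner_add_right, hξ1, hξ1, hξ1, b3]
      map_smul' := fun k c => by
        apply huniq
        intro a
        rw [RingHom.id_apply, inner_smul_right, hξ1, hξ1, b4] }
  have hF : ∀ c, ‖F c‖ ≤ C * ‖ρ c‖ := hξ2
  refine ⟨F.extendOfNorm ρ, ?_, LinearMap.opNorm_extendOfNorm_le hd hC hF⟩
  intro a c
  rw [LinearMap.extendOfNorm_eq hd ⟨_, hF⟩ c]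
  exact hξ1 c a

/-- two operators with the same matrix entries on a dense subspace are equal -/
theorem op_ext (ρ : E →ₗ[ℂ] L) (h : ∀ x : L, (∀ a, ⟪ρ a, x⟫_ℂ = 0) → x = 0) (S T : L →L[ℂ] L)
    (hST : ∀ a c, ⟪ρ a, S (ρ c)⟫_ℂ = ⟪ρ a, T (ρ c)⟫_ℂ) : S = T := by
  have hd := dense_of ρ h
  have h1 : ∀ c, S (ρ c) = T (ρ c) := by
    intro c
    rw [← sub_eq_zero]
    apply h
    intro a
    rw [inner_sub_right, hST, sub_self]
  ext x
  exact hd.induction_on (p := fun x => S x = T x) x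
    (isClosed_eq S.continuous T.continuous) h1

end op

/-- iteration argument -/
theorem iter (α : ℕ → ℝ) (s m : ℝ) (hs : 0 ≤ s) (h0 : ∀ n, 0 ≤ α n)
    (h1 : ∀ n, α n ^ 2 ≤ α (2 * n) * s) (h2 : ∀ n, α n ≤ m) : α 1 ≤ s := by
  rcases hs.eq_or_lt with hs | hs
  · have := h1 1
    rw [← hs, mul_zero] at this
    have h3 : α 1 = 0 := by
      have := pow_eq_zero_iff (two_ne_zero) |>.1 (le_antisymm this (sq_nonneg _))
      exact this
    rw [h3, hs]
  · by_contra hcon
    push Not at hcon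
    -- ratio
    have key : ∀ k : ℕ, (α 1 / s) ^ (2 ^ k) ≤ α (2 ^ k) / s := by
      intro k
      induction k with
      | zero => simp
      | succ k ih =>
        have h3 : (α 1 / s) ^ (2 ^ (k + 1)) ≤ (α (2 ^ k) / s) ^ 2 := by
          rw [pow_succ, pow_mul]
          exact pow_le_pow_left₀ (by have := h0 1; positivity) ih 2
        refine h3.trans ?_
        have h4 := h1 (2 ^ k)
        rw [div_pow, div_le_div_iff₀ (by positivity) hs]
        have e : 2 ^ (k + 1) = 2 * 2 ^ k := by ring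
        rw [e]
        calc α (2 ^ k) ^ 2 * s ≤ (α (2 * 2 ^ k) * s) * s :=
              mul_le_mul_of_nonneg_right h4 hs.le
          _ = α (2 * 2 ^ k) * s ^ 2 := by ring
    have hr : 1 < α 1 / s := by rwa [one_lt_div hs]
    obtain ⟨n, hn⟩ := pow_unbounded_of_one_lt (m / s) hr
    have h5 : (α 1 / s) ^ n ≤ (α 1 / s) ^ (2 ^ n) :=
      pow_le_pow_right₀ hr.le (Nat.lt_two_pow_self).le
    have h6 := key n
    have h7 : α (2 ^ n) / s ≤ m / s := div_le_div_of_nonneg_right (h2 _) hs.le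
    linarith

end H68R2.BP.Eextaux
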