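import Mathlib
import Pool.Agent.H68R2.BP.Props2
import Pool.Agent.H814R2.BP.Gen

open scoped ComplexOrder InnerProductSpace ComplexConjugate Topology
open Finset Filter
noncomputable section
namespace H68R2.BP
open H759R2.Kad H744R2.KZ

namespace Eextaux
variable {H : Type} [NormedAddCommGroup H] [InnerProductSpace ℂ H] [CompleteSpace H]

/-- the corner as a linear space -/
def CnS (M : VonNeumannAlgebra H) (p : H →L[ℂ] H) : Submodule ℂ (H →L[ℂ] H) where
  carrier := Cnr M p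
  add_mem' := by
    rintro a b ⟨h1, h2, h3⟩ ⟨h4, h5, h6⟩
    exact ⟨add_mem h1 h4, by rw [mul_add, h2, h5], by rw [add_mul, h3, h6]⟩
  zero_mem' := ⟨zero_mem _, mul_zero _, zero_mul _⟩
  smul_mem' := by
    rintro c a ⟨h1, h2, h3⟩
    exact ⟨M.toStarSubalgebra.smul_mem h1 c, by rw [mul_smul_comm, h2],
      by rw [smul_mul_assoc, h3]⟩

theorem cn_mul {M : VonNeumannAlgebra H} {p a b : H →L[ℂ] H} (ha : a ∈ Cnr M p)
    (hb : b ∈ Cnr M p) : a * b ∈ Cnr M p :=
  ⟨mul_mem ha.1 hb.1, by rw [← mul_assoc, ha.2.1], by rw [mul_assoc, hb.2.2]⟩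

theorem cn_star {M : VonNeumannAlgebra H} {p a : H →L[ℂ] H} (hp : IsPr p) (ha : a ∈ Cnr M p) :
    star a ∈ Cnr M p := by
  refine ⟨star_mem ha.1, ?_, ?_⟩
  · have := congrArg star ha.2.2
    rw [star_mul, hp.1] at this
    exact this
  · have := congrArg star ha.2.1
    rw [star_mul, hp.1] at this
    exact this

end Eextaux

open Eextaux in
theorem prove_E_ext : E_ext := by
  intro H L _ _ _ _ _ _ M p hpM hp l r w hst hw F hFa hFs hFh hF1 hFp hFb hFq
  have hbi := hst.bi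
  have hpC : p ∈ Cnr M p := ⟨hpM, hp.2, hp.2⟩
  have hFa2 : ∀ x y y', F x (y + y') = F x y + F x y' := by
    intro x y y'
    rw [hFh (y + y') x, hFa, map_add, ← hFh, ← hFh]
  have hFs2 : ∀ (c : ℂ) x y, F x (c • y) = conj c * F x y := by
    intro c x y
    rw [hFh (c • y) x, hFs, map_mul, ← hFh]
  -- the form of the standard representation
  obtain ⟨S, hS⟩ : ∃ S : (H →L[ℂ] H) → (H →L[ℂ] H) → ℂ, ∀ x y, S x y = ⟪w, l x (r y w)⟫_ℂ :=
    ⟨fun x y => ⟪w, l x (r y w)⟫_ℂ, fun _ _ => rfl⟩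
  have hSa : ∀ x x' y, S (x + x') y = S x y + S x' y := by
    intro x x' y
    rw [hS, hS, hS, hbi.l_add, add_apply, inner_add_right]
  have hSs : ∀ (c : ℂ) x y, S (c • x) y = c * S x y := by
    intro c x y
    rw [hS, hS, hbi.l_smul, smul_apply, inner_smul_right]
  have hSh : ∀ x ∈ Cnr M p, ∀ y ∈ Cnr M p, S y x = conj (S x y) := by
    intro x hx y hy
    rw [hS, hS]
    exact hst.herm x hx y hy
  have hSpos : ∀ x ∈ Cnr M p, 0 ≤ (S x x).re := by
    intro x hx
    rw [hS]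
    exact hst.pos x hx
  have hSp : S p p = 1 := by
    rw [hS, hst.l_p, hst.r_p, one_apply_eq_self, one_apply_eq_self,
      inner_self_eq_norm_sq_to_K, hw]
    norm_num
  have hFpp : F p p = 1 := by
    rw [← hFp p, hFh p 1, ← hFp 1, hF1, map_one]
  -- Cauchy-Schwarz for the difference and for `S`
  have hdcs : ∀ x y : CnS M p, ‖F x y - S x y‖ ^ 2 ≤
      (F x x - S x x).re * (F y y - S y y).re := by
    refine cs (E := CnS M p) (fun x y => F x y - S x y) ?_ ?_ ?_ ?_
    · intro x x' y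
      show F ((x : H →L[ℂ] H) + x') y - S ((x : H →L[ℂ] H) + x') y = _
      rw [hFa, hSa]
      ring
    · intro c x y
      show F (c • (x : H →L[ℂ] H)) y - S (c • (x : H →L[ℂ] H)) y = _
      rw [hFs, hSs]
      ring
    · intro x y
      rw [hFh (x : H →L[ℂ] H) y, hSh x x.2 y y.2, map_sub]
    · intro x
      rw [Complex.sub_re, sub_nonneg, hS]
      exact hFq x x.2
  have hScs : ∀ x y : CnS M p, ‖S x y‖ ^ 2 ≤ (S x x).re * (S y y).re := by
    refine cs (E := CnS M p) (fun x y => S x y) ?_ ?_ ?_ ?_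
    · intro x x' y
      exact hSa _ _ _
    · intro c x y
      exact hSs _ _ _
    · intro x y
      exact hSh x x.2 y y.2
    · intro x
      exact hSpos x x.2
  have hFS : ∀ y ∈ Cnr M p, F p y = S p y := by
    intro y hy
    have h := hdcs ⟨p, hpC⟩ ⟨y, hy⟩
    simp only at h
    rw [hFpp, hSp, sub_self, Complex.zero_re, zero_mul] at h
    have h2 := pow_eq_zero_iff (two_ne_zero) |>.1 (le_antisymm h (sq_nonneg _))
    exact sub_eq_zero.1 (norm_eq_zero.1 h2)
  have hF1y : ∀ y ∈ Cnr M p, F 1 y = ⟪w, r y w⟫_ℂ := by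
    intro y hy
    rw [hFp, hFS y hy, hS, hst.l_p, one_apply_eq_self]
  have hF1yy : ∀ y ∈ Cnr M p, √((F 1 (star y * y)).re) = ‖r y w‖ := by
    intro y hy
    have hys := cn_star hp hy
    rw [hF1y _ (cn_mul hys hy), hbi.r_mul _ hys _ hy, hbi.r_star y hy,
      mul_apply_eq_comp, ContinuousLinearMap.star_eq_adjoint,
      ContinuousLinearMap.adjoint_inner_right]
    have h : (⟪r y w, r y w⟫_ℂ).re = ‖r y w‖ ^ 2 := inner_self_eq_norm_sq (𝕜 := ℂ) (r y w)
    rw [h]
    exact Real.sqrt_sq (norm_nonneg _)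
  -- the dense subspace
  obtain ⟨ρ, hρ⟩ : ∃ ρ : CnS M p →ₗ[ℂ] L, ∀ y : CnS M p, ρ y = r (star (y : H →L[ℂ] H)) w :=
    ⟨{ toFun := fun y => r (star (y : H →L[ℂ] H)) w
       map_add' := fun y y' => by
        show r (star ((y : H →L[ℂ] H) + y')) w = _
        rw [star_add, hbi.r_add, add_apply]
       map_smul' := fun c y => by
        show r (star (c • (y : H →L[ℂ] H))) w = c • r (star (y : H →L[ℂ] H)) w
        rw [star_smul, hbi.r_smul, smul_apply]
        congr 1
        exact Complex.conj_conj c }, fun y => rfl⟩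
  have hρ' : ∀ (y : H →L[ℂ] H) (hy : y ∈ Cnr M p), r y w = ρ ⟨star y, cn_star hp hy⟩ := by
    intro y hy
    rw [hρ]
    simp only [star_star]
  have hdense : ∀ x : L, (∀ a, ⟪ρ a, x⟫_ℂ = 0) → x = 0 := by
    intro x hx
    apply hst.cyc
    intro a ha
    rw [hρ' a ha]
    exact hx _
  have hwρ : w = ρ ⟨p, hpC⟩ := by
    rw [hρ]
    simp only [hp.1]
    rw [hst.r_p, one_apply_eq_self]
  -- the operators
  have hop : ∀ x : H →L[ℂ] H, ∃ T : L →L[ℂ] L,
      (∀ a c : CnS M p, ⟪ρ a, T (ρ c)⟫_ℂ = F x ((a : H →L[ℂ] H) * star (c : H →L[ℂ] H))) ∧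
        ‖T‖ ≤ ‖x‖ := by
    intro x
    refine exists_op ρ hdense (fun a c => F x ((a : H →L[ℂ] H) * star (c : H →L[ℂ] H))) ‖x‖
      (norm_nonneg _) ?_ ?_ ?_ ?_ ?_
    · intro a a' c
      show F x (((a : H →L[ℂ] H) + a') * star (c : H →L[ℂ] H)) = _
      rw [add_mul, hFa2]
    · intro k a c
      show F x ((k • (a : H →L[ℂ] H)) * star (c : H →L[ℂ] H)) = _
      rw [smul_mul_assoc, hFs2]
    · intro a c c'
      show F x ((a : H →L[ℂ] H) * star ((c : H →L[ℂ] H) + c')) = _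
      rw [star_add, mul_add, hFa2]
    · intro k a c
      show F x ((a : H →L[ℂ] H) * star (k • (c : H →L[ℂ] H))) = _
      rw [star_smul, mul_smul_comm, hFs2]
      congr 1
      exact Complex.conj_conj k
    · intro a c
      have h := hFb x (star (c : H →L[ℂ] H)) (star (a : H →L[ℂ] H))
      rw [hF1yy _ (cn_star hp c.2), hF1yy _ (cn_star hp a.2), star_star] at h
      rw [hρ, hρ]
      exact h
  choose T hT1 hT2 using hop
  have hcomm : ∀ x, ∀ a ∈ Cnr M p, T x * r a = r a * T x := by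
    intro x a ha
    apply op_ext ρ hdense
    intro c d
    have has := cn_star hp ha
    have e1 : r a (ρ d) = ρ ⟨(d : H →L[ℂ] H) * star a, cn_mul d.2 has⟩ := by
      rw [hρ, hρ]
      simp only [star_mul, star_star]
      rw [hbi.r_mul a ha _ (cn_star hp d.2), mul_apply_eq_comp]
    have e2 : ⟪ρ c, r a (T x (ρ d))⟫_ℂ =
        ⟪ρ ⟨(c : H →L[ℂ] H) * a, cn_mul c.2 ha⟩, T x (ρ d)⟫_ℂ := by
      rw [hρ ⟨(c : H →L[ℂ] H) * a, cn_mul c.2 ha⟩]
      simp only [star_mul]
      rw [hbi.r_mul _ has _ (cn_star hp c.2), hbi.r_star a ha, mul_apply_eq_comp,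
        ContinuousLinearMap.star_eq_adjoint, ContinuousLinearMap.adjoint_inner_left, ← hρ]
    rw [mul_apply_eq_comp, mul_apply_eq_comp, e1, e2, hT1, hT1]
    simp only [star_mul, star_star]
    rw [mul_assoc]
  have hfull : ∀ x, ∃ a ∈ Cnr M p, T x = l a := fun x => hst.full (T x) (hcomm x)
  choose Ex hEx1 hEx2 using hfull
  have hinj : ∀ a ∈ Cnr M p, ∀ b ∈ Cnr M p, l a = l b → a = b := by
    intro a ha b hb hab
    have hsub : a - b ∈ Cnr M p := (CnS M p).sub_mem ha hb
    have h1 : l (a - b) = 0 := by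
      have := hbi.l_add (a - b) b
      rw [sub_add_cancel, hab] at this
      exact right_eq_add.1 this
    have h2 := hst.isom _ hsub
    rw [h1, norm_zero] at h2
    exact sub_eq_zero.1 (norm_eq_zero.1 h2.symm)
  have hnorm : ∀ x, ‖Ex x‖ ≤ ‖x‖ := by
    intro x
    rw [← hst.isom _ (hEx1 x), ← hEx2 x]
    exact hT2 x
  have hEadd : ∀ x x', Ex (x + x') = Ex x + Ex x' := by
    intro x x'
    apply hinj _ (hEx1 _) _ ((CnS M p).add_mem (hEx1 x) (hEx1 x'))
    rw [hbi.l_add, ← hEx2, ← hEx2, ← hEx2]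
    apply op_ext ρ hdense
    intro a c
    rw [add_apply, inner_add_right, hT1, hT1, hT1, hFa]
  have hEsmul : ∀ (k : ℂ) x, Ex (k • x) = k • Ex x := by
    intro k x
    apply hinj _ (hEx1 _) _ ((CnS M p).smul_mem k (hEx1 x))
    rw [hbi.l_smul, ← hEx2, ← hEx2]
    apply op_ext ρ hdense
    intro a c
    rw [smul_apply, inner_smul_right, hT1, hT1, hFs]
  -- `S (E x) y = F x y`
  have hSF : ∀ x, ∀ y ∈ Cnr M p, S (Ex x) y = F x y := by
    intro x y hy
    rw [hS, ← hEx2, hρ' y hy]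
    conv_lhs => rw [hwρ]
    rw [hT1]
    simp only [star_star]
    rw [hy.2.1]
  have hsym : ∀ x ∈ Cnr M p, ∀ y ∈ Cnr M p, S (Ex x) y = S x (Ex y) := by
    intro x hx y hy
    rw [hSF x y hy, hFh y x, ← hSF y x hx, ← hSh _ (hEx1 y) _ hx]
  have hitmem : ∀ n : ℕ, ∀ x ∈ Cnr M p, Ex^[n] x ∈ Cnr M p := by
    intro n x hx
    cases n with
    | zero => exact hx
    | succ n => rw [Function.iterate_succ_apply']; exact hEx1 _
  have hitnorm : ∀ (n : ℕ) (x : H →L[ℂ] H), ‖Ex^[n] x‖ ≤ ‖x‖ := by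
    intro n x
    induction n with
    | zero => exact le_rfl
    | succ n ih => rw [Function.iterate_succ_apply']; exact (hnorm _).trans ih
  have hitsym : ∀ n : ℕ, ∀ x ∈ Cnr M p, ∀ y ∈ Cnr M p, S (Ex^[n] x) y = S x (Ex^[n] y) := by
    intro n
    induction n with
    | zero => intro x _ y _; rfl
    | succ n ih =>
      intro x hx y hy
      rw [Function.iterate_succ_apply', hsym _ (hitmem n x hx) y hy, ih x hx _ (hEx1 y),
        ← Function.iterate_succ_apply]
  have hiter : ∀ x ∈ Cnr M p, ‖S (Ex x) x‖ ≤ (S x x).re := by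
    intro x hx
    refine iter (fun n => ‖S (Ex^[n] x) x‖) (S x x).re (‖x‖ * ‖x‖) (hSpos x hx)
      (fun n => norm_nonneg _) ?_ ?_
    · intro n
      have h := hScs ⟨Ex^[n] x, hitmem n x hx⟩ ⟨x, hx⟩
      simp only at h
      refine h.trans (mul_le_mul_of_nonneg_right ?_ (hSpos x hx))
      rw [← hitsym n _ (hitmem n x hx) x hx, ← Function.iterate_add_apply, two_mul]
      exact Complex.re_le_norm _
    · intro n
      have hn := hitmem n x hx
      show ‖S (Ex^[n] x) x‖ ≤ _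
      rw [hS]
      refine (norm_inner_le_norm _ _).trans ?_
      rw [hw, one_mul]
      refine (ContinuousLinearMap.le_opNorm _ _).trans ?_
      refine mul_le_mul ((hbi.l_norm _ hn).trans (hitnorm n x)) ?_ (norm_nonneg _)
        (norm_nonneg _)
      refine (ContinuousLinearMap.le_opNorm _ _).trans ?_
      rw [hw, mul_one]
      exact hbi.r_norm _ hx
  have hd0 : ∀ x ∈ Cnr M p, (F x x - S x x).re = 0 := by
    intro x hx
    have h1 := hiter x hx
    rw [hSF x x hx] at h1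
    have h2 := Complex.re_le_norm (F x x)
    have h3 := hFq x hx
    rw [← hS] at h3
    rw [Complex.sub_re]
    linarith
  have hFS2 : ∀ x ∈ Cnr M p, ∀ y ∈ Cnr M p, F x y = S x y := by
    intro x hx y hy
    have h := hdcs ⟨x, hx⟩ ⟨y, hy⟩
    simp only at h
    rw [hd0 x hx, zero_mul] at h
    have h2 := pow_eq_zero_iff (two_ne_zero) |>.1 (le_antisymm h (sq_nonneg _))
    exact sub_eq_zero.1 (norm_eq_zero.1 h2)
  have hid : ∀ x ∈ Cnr M p, Ex x = x := by
    intro x hx
    have hu : Ex x - x ∈ Cnr M p := (CnS M p).sub_mem (hEx1 x) hx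
    have hSu : ∀ y ∈ Cnr M p, S (Ex x - x) y = 0 := by
      intro y hy
      have h := hSa (Ex x - x) x y
      rw [sub_add_cancel, hSF x y hy, hFS2 x hx y hy] at h
      exact right_eq_add.1 h
    have hl0 : l (Ex x - x) = 0 := by
      apply op_ext ρ hdense
      intro a c
      rw [hρ, hρ, hbi.r_star _ a.2, ContinuousLinearMap.star_eq_adjoint,
        ContinuousLinearMap.adjoint_inner_left, zero_apply, inner_zero_right,
        ← mul_apply_eq_comp (r (a : H →L[ℂ] H)), ← hbi.comm _ hu _ a.2,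
        mul_apply_eq_comp, ← mul_apply_eq_comp (r (a : H →L[ℂ] H)),
        ← hbi.r_mul _ a.2 _ (cn_star hp c.2), ← hS]
      exact hSu _ (cn_mul a.2 (cn_star hp c.2))
    have h2 := hst.isom _ hu
    rw [hl0, norm_zero] at h2
    exact sub_eq_zero.1 (norm_eq_zero.1 h2.symm)
  exact ⟨{ toFun := Ex, map_add' := hEadd, map_smul' := hEsmul }, hnorm, hEx1, hid⟩

end H68R2.BP
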